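import Pool.Agent.H16.CW.CT1

/-! No good piece has finitely many germs. -/

set_option autoImplicit false

open Set Pool.Agent.TK Pool.Agent.H71.VK Pool.Agent.CW

namespace Pool.Agent.H16.CW

variable {n : ℕ} {c : ℕ → ℕ → ℕ} {Sm : Pr → Prop}

lemma df_image {G : GS n c Sm} {π : Pr} {Z : List ℕ} (hZ : dl π ⊆ Z)
    {p : Equiv.Perm ℕ × Equiv.Perm ℕ} (hp : p ∈ G.K) (H : ∀ z ∈ Z, p.1 z = z) (x : ℕ) {r : ℕ}
    (hr : r ∈ Z) : df c (st c π) (p.1 x) r = p.1 '' df c (st c π) x r := by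
  ext y
  constructor
  · rintro ⟨hy, hne⟩
    refine ⟨p.1⁻¹ y, ⟨?_, ?_⟩, by simp⟩
    · rw [← st_mem_aut hZ hp H]
      simpa using hy
    · intro he
      apply hne
      have e1 := ee_aut hp x (p.1⁻¹ y)
      have e2 := ee_aut hp r (p.1⁻¹ y)
      have e3 : p.1 (p.1⁻¹ y) = y := by simp
      rw [e3] at e1 e2
      rw [H r hr] at e2
      rw [e1, e2, he]
  · rintro ⟨u, ⟨hu, hne⟩, rfl⟩
    refine ⟨(st_mem_aut hZ hp H u).2 hu, fun he => hne ?_⟩
    have e1 := ee_aut hp x u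
    have e2 := ee_aut hp r u
    rw [H r hr] at e2
    rw [← e1, ← e2, he]

lemma nn_df_iff {G : GS n c Sm} {π : Pr} {Z : List ℕ} (hZ : dl π ⊆ Z)
    {p : Equiv.Perm ℕ × Equiv.Perm ℕ} (hp : p ∈ G.K) (H : ∀ z ∈ Z, p.1 z = z) (x : ℕ) {r : ℕ}
    (hr : r ∈ Z) : G.Nn (df c (st c π) (p.1 x) r) ↔ G.Nn (df c (st c π) x r) := by
  constructor
  · intro h
    have hq : p⁻¹ ∈ G.K := G.K.inv_mem hp
    have h1 := GS.Nn.image h hq
    rw [df_image hZ hp H x hr] at h1
    have e : (p⁻¹).1 '' (p.1 '' df c (st c π) x r) = df c (st c π) x r := by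
      rw [Set.image_image]
      ext y
      simp
    rwa [e] at h1
  · intro h
    rw [df_image hZ hp H x hr]
    exact GS.Nn.image h hp

end Pool.Agent.H16.CW

namespace Pool.Agent.CW

open Pool.Agent.H16.CW in
/-- CON: no good piece has finitely many germs. -/
theorem pf_CON (hCT1 : T_CT1) (hCT2 : T_CT2) : T_CON := by
  classical
  intro n c Sm G π hvd hgood E hE hall
  obtain ⟨Z, hZ, v, hv, hvg⟩ := GS.good hgood (dl π ++ E)
  have hdl : dl π ⊆ Z := fun a ha => hZ (List.mem_append_left _ ha)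
  have hEZ : E ⊆ Z := fun a ha => hZ (List.mem_append_right _ ha)
  obtain ⟨lam, hlam⟩ : ∃ lam : ℕ → ℕ, ∀ x, lam x =
      (E.find? (fun r => decide (G.Nn (df c (st c π) x r)))).getD 0 := ⟨_, fun _ => rfl⟩
  have hspec : ∀ x ∈ st c π, lam x ∈ E ∧ G.Nn (df c (st c π) x (lam x)) := by
    intro x hx
    obtain ⟨r, hr, hr'⟩ := hall x hx
    cases hf : E.find? (fun r => decide (G.Nn (df c (st c π) x r))) with
    | none =>
      have := List.find?_eq_none.1 hf r hr
      simp only [decide_eq_true_eq] at this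
      exact absurd hr' this
    | some r' =>
      have h1 := List.mem_of_find?_eq_some hf
      have h2 := List.find?_some hf
      simp only [decide_eq_true_eq] at h2
      rw [hlam, hf]
      exact ⟨h1, h2⟩
  have hCD : CD G π Z lam := by
    refine ⟨hvd, hdl, fun x hx => ⟨hEZ (hspec x hx).1, hE _ (hspec x hx).1⟩,
      fun x hx => (hspec x hx).2, fun p hp H x hx => ?_, v, hv, hvg⟩
    rw [hlam, hlam]
    congr 1
    apply List.find?_congr
    intro r hr
    simp only [decide_eq_decide]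
    exact nn_df_iff hdl hp H x (hEZ hr)
  exact hCT2 n c Sm G π Z lam hCD (hCT1 n c Sm G π Z lam hCD)

end Pool.Agent.CW
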