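import Pool.Agent.H76.CW.StmtB

/-! Steps (1), (2), (3) of CONTRA. -/

set_option autoImplicit false

open Set Pool.Agent.TK Pool.Agent.H71.VK Pool.Agent.CW

namespace Pool.Agent.H16.CW

variable {n : ℕ} {c : ℕ → ℕ → ℕ} {Sm : Pr → Prop}

lemma map_fix {Z : List ℕ} {h : Equiv.Perm ℕ} (H : ∀ z ∈ Z, h z = z) : Z.map h = Z := by
  conv_rhs => rw [← List.map_id Z]
  exact List.map_congr_left H

lemma ee_aut {G : GS n c Sm} {p : Equiv.Perm ℕ × Equiv.Perm ℕ} (hp : p ∈ G.K) (x y : ℕ) :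
    ee c (p.1 x) (p.1 y) = ee c x y := by
  unfold ee
  rw [G.aut p hp, G.aut p hp]

lemma st_mem_aut {G : GS n c Sm} {π : Pr} {Z : List ℕ} (hZ : dl π ⊆ Z)
    {p : Equiv.Perm ℕ × Equiv.Perm ℕ} (hp : p ∈ G.K) (H : ∀ z ∈ Z, p.1 z = z) (x : ℕ) :
    p.1 x ∈ st c π ↔ x ∈ st c π := by
  have h1 := st_fix p.1 (G.aut p hp) (π := π) fun a ha => H a (hZ ha)
  constructor
  · intro h
    rw [← h1] at h
    obtain ⟨y, hy, hyx⟩ := h
    rwa [← p.1.injective hyx]
  · intro h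
    rw [← h1]
    exact ⟨x, h, rfl⟩

lemma sp_eqv {G : GS n c Sm} {Z : List ℕ} {p : Equiv.Perm ℕ × Equiv.Perm ℕ} (hp : p ∈ G.K)
    (H : ∀ z ∈ Z, p.1 z = z) (x j : ℕ) : j ∈ G.sp Z x ↔ p.2 j ∈ G.sp Z (p.1 x) := by
  have h1 := G.eqv p hp (x :: Z) j
  have h2 := G.eqv p hp Z j
  rw [List.map_cons, map_fix H] at h1
  rw [map_fix H] at h2
  unfold GS.sp
  rw [Finset.mem_sdiff, Finset.mem_sdiff, h1, h2]

/-- (1) -/
lemma sp_of_out {G : GS n c Sm} {π : Pr} {Z : List ℕ} {lam : ℕ → ℕ} (h : CD G π Z lam) {x : ℕ}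
    (hx : x ∈ st c π) {y : ℕ} (hy : y ∈ df c (st c π) x (lam x)) : G.sp Z y ⊆ G.sp Z x := by
  have h1 : G.sup (y :: x :: Z) ⊆ G.sup (x :: Z) := by
    refine G.lemA (h.germ x hx) (Z := x :: Z) (fun p hp hfix u hu => ?_) y hy
    have hfZ : ∀ z ∈ Z, p.1 z = z := fun z hz => hfix z (List.mem_cons_of_mem _ hz)
    have hfx : p.1 x = x := hfix x List.mem_cons_self
    have hfl : p.1 (lam x) = lam x := hfZ _ (h.lamZ x hx).1
    refine ⟨(st_mem_aut h.dlZ hp hfZ u).2 hu.1, ?_⟩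
    have e1 := ee_aut hp x u
    have e2 := ee_aut hp (lam x) u
    rw [hfx] at e1
    rw [hfl] at e2
    rw [e1, e2]
    exact hu.2
  have h2 : G.sup (y :: Z) ⊆ G.sup (x :: Z) := (G.mono _ _ (by
    intro a ha
    rcases List.mem_cons.1 ha with rfl | ha
    · exact List.mem_cons_self
    · exact List.mem_cons_of_mem _ (List.mem_cons_of_mem _ ha))).trans h1
  exact Finset.sdiff_subset_sdiff h2 (Finset.Subset.refl _)

/-- (2) -/
lemma ee_lam {G : GS n c Sm} {π : Pr} {Z : List ℕ} {lam : ℕ → ℕ} (h : CD G π Z lam) {x y : ℕ}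
    (hx : x ∈ st c π) (hy : y ∈ st c π) (hsx : (G.sp Z x).Nonempty) (hsy : (G.sp Z y).Nonempty) :
    ee c (lam x) y = ee c x (lam y) := by
  have hd : Disjoint (G.sup Z) (G.sp Z y) := by
    unfold GS.sp
    exact Finset.disjoint_sdiff
  obtain ⟨σ, h1, h2⟩ := exists_off (G.sup Z) (G.sp Z y) (G.sp Z x) hd
  obtain ⟨g, hg, hfix⟩ := G.surj Z σ h1
  have hy' : g y ∈ st c π := (st_mem_aut h.dlZ hg hfix y).2 hy
  have hlam : lam (g y) = lam y := h.inv _ hg hfix y hy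
  have n1 : g y ∉ df c (st c π) x (lam x) := by
    intro hout
    have h3 := sp_of_out h hx hout
    obtain ⟨j, hj⟩ := hsy
    exact h2 j hj (h3 ((sp_eqv hg hfix y j).1 hj))
  have n2 : x ∉ df c (st c π) (g y) (lam (g y)) := by
    intro hout
    have h3 := sp_of_out h hy' hout
    obtain ⟨i, hi⟩ := hsx
    have h4 : i ∈ G.sp Z (g y) := h3 hi
    have h5 : σ⁻¹ i ∈ G.sp Z y := by
      rw [sp_eqv hg hfix y]
      simpa using h4
    have h6 := h2 _ h5
    apply h6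
    simpa using hi
  have e1 : ee c x (g y) = ee c (lam x) (g y) := by
    by_contra hne
    exact n1 ⟨hy', hne⟩
  have e2 : ee c (g y) x = ee c (lam (g y)) x := by
    by_contra hne
    exact n2 ⟨hx, hne⟩
  rw [hlam] at e2
  have e3 : ee c (lam x) (g y) = ee c (lam x) y := by
    have := ee_aut hg (lam x) y
    simp only at this
    rwa [hfix _ (h.lamZ x hx).1] at this
  rw [← e3, ← e1]
  exact ee_eq_iff.2 e2

/-- CT1: steps (1), (2), (3) of CONTRA. -/
theorem pf_ct1 : T_CT1 := by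
  intro n c Sm G π Z lam h x hx y hy hsx hne
  by_cases hsub : G.sp Z y ⊆ G.sp Z x
  · have n2 : x ∉ df c (st c π) y (lam y) := fun hout =>
      hne (Finset.Subset.antisymm hsub (sp_of_out h hy hout))
    have e2 : ee c y x = ee c (lam y) x := by
      by_contra hne
      exact n2 ⟨hx, hne⟩
    exact ee_eq_iff.2 e2
  · have n1 : y ∉ df c (st c π) x (lam x) := fun hout => hsub (sp_of_out h hx hout)
    have e1 : ee c x y = ee c (lam x) y := by
      by_contra hne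
      exact n1 ⟨hy, hne⟩
    have hsy : (G.sp Z y).Nonempty := by
      rw [Finset.nonempty_iff_ne_empty]
      intro h0
      exact hsub (by rw [h0]; exact Finset.empty_subset _)
    rw [e1]
    exact ee_lam h hx hy hsx hsy

end Pool.Agent.H16.CW

namespace Pool.Agent.CW

theorem pf_CT1 : T_CT1 := Pool.Agent.H16.CW.pf_ct1

end Pool.Agent.CW
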