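import Pool.Agent.H16.CW.CT1

/-! Steps (4), (5) and the end of CONTRA. -/

set_option autoImplicit false

open Set Pool.Agent.TK Pool.Agent.H71.VK Pool.Agent.CW

namespace Pool.Agent.H16.CW

variable {n : ℕ} {c : ℕ → ℕ → ℕ} {Sm : Pr → Prop}

/-- elements of the group which fix `Z` and move the new support of `v` off `U` -/
lemma exists_offK (G : GS n c Sm) (Z : List ℕ) (v : ℕ) (U : Finset ℕ) :
    ∃ p ∈ G.K, (∀ z ∈ Z, p.1 z = z) ∧ Disjoint (G.sp Z (p.1 v)) U := by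
  have hd : Disjoint (G.sup Z) (G.sp Z v) := by
    unfold GS.sp
    exact Finset.disjoint_sdiff
  obtain ⟨σ, h1, h2⟩ := exists_off (G.sup Z) (G.sp Z v) U hd
  obtain ⟨g, hg, hfix⟩ := G.surj Z σ h1
  refine ⟨(g, σ), hg, hfix, ?_⟩
  rw [Finset.disjoint_left]
  intro i hi hU
  have h5 : σ⁻¹ i ∈ G.sp Z v := by
    rw [sp_eqv hg hfix v]
    simpa using hi
  apply h2 _ h5
  simpa using hU

/-- the group elements fixing `Z` -/
def Orb (G : GS n c Sm) (Z : List ℕ) (p : Equiv.Perm ℕ × Equiv.Perm ℕ) : Prop :=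
  p ∈ G.K ∧ ∀ z ∈ Z, p.1 z = z

lemma Orb.comp {G : GS n c Sm} {Z : List ℕ} {p q : Equiv.Perm ℕ × Equiv.Perm ℕ}
    (hp : Orb G Z p) (hq : Orb G Z q) : Orb G Z (q * p⁻¹) := by
  refine ⟨G.K.mul_mem hq.1 (G.K.inv_mem hp.1), fun z hz => ?_⟩
  have h1 : (p⁻¹).1 z = z := by
    have h2 : p.1⁻¹ (p.1 z) = z := by simp
    rw [hp.2 z hz] at h2
    exact h2
  change q.1 ((p⁻¹).1 z) = z
  rw [h1, hq.2 z hz]

lemma sp_move {G : GS n c Sm} {Z : List ℕ} {p q : Equiv.Perm ℕ × Equiv.Perm ℕ}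
    (hp : Orb G Z p) (hq : Orb G Z q) {v x : ℕ} (hx : G.sp Z x = G.sp Z (p.1 v)) :
    G.sp Z ((q * p⁻¹).1 x) = G.sp Z (q.1 v) := by
  have hr := hp.comp hq
  ext i
  have h1 : i = (q * p⁻¹).2 ((q * p⁻¹).2⁻¹ i) := by simp
  rw [h1, ← sp_eqv hr.1 hr.2 x, hx]
  have h2 : q.1 v = (q * p⁻¹).1 (p.1 v) := by
    change q.1 v = q.1 (p.1⁻¹ (p.1 v))
    simp
  rw [h2, ← sp_eqv hr.1 hr.2 (p.1 v)]

/-- representatives of the types -/
lemma exists_reps (hF : T_FTY) (hbd : ∀ x y, c x y < n) (Z : List ℕ) (A : Set ℕ) :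
    ∃ E : List ℕ, (∀ e ∈ E, e ∈ A) ∧ ∀ x ∈ A, ∃ e ∈ E, tp c Z e = tp c Z x := by
  classical
  have h1 : ((tp c Z) '' A).Finite := (hF n c hbd Z).subset (by
    rintro _ ⟨x, -, rfl⟩
    exact ⟨x, rfl⟩)
  have h2 : (h1.toFinset : Set Ty) ⊆ (tp c Z) '' A := by
    rw [Set.Finite.coe_toFinset]
  obtain ⟨s, hs, hs'⟩ := Finset.subset_set_image_iff.1 h2
  refine ⟨s.toList, fun e he => hs (by simpa using he), fun x hx => ?_⟩
  have h3 : tp c Z x ∈ s.image (tp c Z) := by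
    rw [hs', Set.Finite.mem_toFinset]
    exact ⟨x, hx, rfl⟩
  obtain ⟨e, he, hex⟩ := Finset.mem_image.1 h3
  exact ⟨e, by simpa using he, hex⟩

lemma pick3 {α : Type} {A1 A2 A3 : α} (h12 : A1 ≠ A2) (h13 : A1 ≠ A3) (h23 : A2 ≠ A3)
    (y y' : α) : (y ≠ A1 ∧ y' ≠ A1) ∨ (y ≠ A2 ∧ y' ≠ A2) ∨ (y ≠ A3 ∧ y' ≠ A3) := by
  by_cases a : y = A1 <;> by_cases b : y' = A1 <;> by_cases d : y = A2 <;>
    by_cases e : y' = A2 <;> by_cases f : y = A3 <;> by_cases g : y' = A3 <;> simp_all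

/-- CT2: steps (4), (5) and the end of CONTRA. -/
theorem pf_ct2 (hS : T_SYT) (hF : T_FTY) : T_CT2 := by
  classical
  intro n c Sm G π Z lam h H3
  obtain ⟨v, hv, hvg⟩ := h.good
  have hvne : (G.sp Z v).Nonempty := by
    obtain ⟨j, hj, hj'⟩ := Finset.not_subset.1 hvg
    exact ⟨j, Finset.mem_sdiff.2 ⟨hj, hj'⟩⟩
  -- the new supports of the translates
  have hne : ∀ p, Orb G Z p → (G.sp Z (p.1 v)).Nonempty := by
    intro p hp
    obtain ⟨j, hj⟩ := hvne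
    exact ⟨p.2 j, (sp_eqv hp.1 hp.2 v j).1 hj⟩
  have hst : ∀ p, Orb G Z p → ∀ x, p.1 x ∈ st c π ↔ x ∈ st c π := fun p hp x =>
    st_mem_aut h.dlZ hp.1 hp.2 x
  have hoff : ∀ U : Finset ℕ, ∃ p, Orb G Z p ∧ Disjoint (G.sp Z (p.1 v)) U := by
    intro U
    obtain ⟨p, h1, h2, h3⟩ := exists_offK G Z v U
    exact ⟨p, ⟨h1, h2⟩, h3⟩
  have hneq : ∀ p, Orb G Z p → ∀ A : Finset ℕ, Disjoint (G.sp Z (p.1 v)) A →
      G.sp Z (p.1 v) ≠ A := by
    intro p hp A hA heq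
    obtain ⟨j, hj⟩ := hne p hp
    exact Finset.disjoint_left.1 hA hj (heq ▸ hj)
  -- three disjoint ones
  obtain ⟨p1, hp1, -⟩ := hoff ∅
  obtain ⟨p2, hp2, hd2⟩ := hoff (G.sp Z (p1.1 v))
  obtain ⟨p3, hp3, hd3⟩ := hoff (G.sp Z (p1.1 v) ∪ G.sp Z (p2.1 v))
  have h21 : G.sp Z (p2.1 v) ≠ G.sp Z (p1.1 v) := hneq p2 hp2 _ hd2
  have h31 : G.sp Z (p3.1 v) ≠ G.sp Z (p1.1 v) := hneq p3 hp3 _
    (Finset.disjoint_of_subset_right Finset.subset_union_left hd3)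
  have h32 : G.sp Z (p3.1 v) ≠ G.sp Z (p2.1 v) := hneq p3 hp3 _
    (Finset.disjoint_of_subset_right Finset.subset_union_right hd3)
  -- representatives of the types
  obtain ⟨E1, hE1, hE1'⟩ := exists_reps hF G.bd Z {x | x ∈ st c π ∧ G.sp Z x = G.sp Z (p1.1 v)}
  obtain ⟨E2, hE2, hE2'⟩ := exists_reps hF G.bd Z {x | x ∈ st c π ∧ G.sp Z x = G.sp Z (p2.1 v)}
  obtain ⟨E3, hE3, hE3'⟩ := exists_reps hF G.bd Z {x | x ∈ st c π ∧ G.sp Z x = G.sp Z (p3.1 v)}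
  obtain ⟨S, hSdef⟩ : ∃ S : List ℕ, S = Z ++ (E1 ++ (E2 ++ E3)) := ⟨_, rfl⟩
  have hZS : Z ⊆ S := by
    rw [hSdef]
    exact List.subset_append_left _ _
  have hES : ∀ e, (e ∈ E1 ∨ e ∈ E2 ∨ e ∈ E3) → e ∈ S := by
    intro e he
    rw [hSdef]
    simp only [List.mem_append]
    tauto
  have hSc : ∀ e, e ∈ S → e ∈ Z ∨ (e ∈ E1 ∨ e ∈ E2 ∨ e ∈ E3) := by
    intro e he
    rw [hSdef] at he
    simp only [List.mem_append] at he
    tauto
  obtain ⟨S', hS'⟩ : ∃ S' : List ℕ, ∀ a, a ∈ S' ↔ a ∈ S ∧ a ∈ st c π := by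
    refine ⟨S.filter (fun a => decide (a ∈ st c π)), fun a => ?_⟩
    simp
  have hS'S : S' ⊆ S := fun a ha => ((hS' a).1 ha).1
  -- the supports of points of S lie in the support of S
  have hsupS : ∀ e ∈ S, G.sp Z e ⊆ G.sup S := by
    intro e he
    refine (Finset.sdiff_subset).trans (G.mono _ _ ?_)
    intro a ha
    rcases List.mem_cons.1 ha with rfl | ha
    · exact he
    · exact hZS ha
  -- the types over Z are determined by the types over S' ++ zl π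
  have htpZ : ∀ x ∈ st c π, ∀ x' ∈ st c π, tp c (S' ++ zl π) x = tp c (S' ++ zl π) x' →
      tp c Z x = tp c Z x' := by
    intro x hx x' hx' he
    rw [tp_eq_iff] at he ⊢
    intro z hz
    by_cases hza : z ∈ st c π
    · exact he z (List.mem_append_left _ ((hS' z).2 ⟨hZS hz, hza⟩))
    · exact ctl h.vd hx hx' (tp_eq_iff.2 fun s hs => he s (List.mem_append_right _ hs)) hza
  -- for all points x of a translate there are points of the three translates of the same type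
  have hrep : ∀ p, Orb G Z p → ∀ x ∈ st c π, G.sp Z x = G.sp Z (p.1 v) →
      ∀ q, Orb G Z q → ∃ x' ∈ st c π, G.sp Z x' = G.sp Z (q.1 v) ∧ tp c Z x' = tp c Z x := by
    intro p hp x hx hsx q hq
    have hr := hp.comp hq
    refine ⟨(q * p⁻¹).1 x, (hst _ hr x).2 hx, sp_move hp hq hsx, ?_⟩
    have e1 := tp_iso (c := c) (c' := c) (h := ((q * p⁻¹).1 : ℕ → ℕ)) (G.aut _ hr.1) Z x
    rwa [map_fix hr.2] at e1
  have hrepE : ∀ p, Orb G Z p → ∀ x ∈ st c π, G.sp Z x = G.sp Z (p.1 v) →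
      ∀ B B' : Finset ℕ, ∃ e ∈ S, e ∈ st c π ∧ (G.sp Z e).Nonempty ∧ B ≠ G.sp Z e ∧
        B' ≠ G.sp Z e ∧ tp c Z e = tp c Z x := by
    intro p hp x hx hsx B B'
    rcases pick3 h21.symm h31.symm h32.symm B B' with ⟨k1, k2⟩ | ⟨k1, k2⟩ | ⟨k1, k2⟩
    · obtain ⟨x', hx', hs', ht'⟩ := hrep p hp x hx hsx p1 hp1
      obtain ⟨e, he, hte⟩ := hE1' x' ⟨hx', hs'⟩
      obtain ⟨he1, he2⟩ := hE1 e he
      exact ⟨e, hES e (Or.inl he), he1, by rw [he2]; exact hne p1 hp1, by rwa [he2],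
        by rwa [he2], hte.trans ht'⟩
    · obtain ⟨x', hx', hs', ht'⟩ := hrep p hp x hx hsx p2 hp2
      obtain ⟨e, he, hte⟩ := hE2' x' ⟨hx', hs'⟩
      obtain ⟨he1, he2⟩ := hE2 e he
      exact ⟨e, hES e (Or.inr (Or.inl he)), he1, by rw [he2]; exact hne p2 hp2, by rwa [he2],
        by rwa [he2], hte.trans ht'⟩
    · obtain ⟨x', hx', hs', ht'⟩ := hrep p hp x hx hsx p3 hp3
      obtain ⟨e, he, hte⟩ := hE3' x' ⟨hx', hs'⟩
      obtain ⟨he1, he2⟩ := hE3 e he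
      exact ⟨e, hES e (Or.inr (Or.inr he)), he1, by rw [he2]; exact hne p3 hp3, by rwa [he2],
        by rwa [he2], hte.trans ht'⟩
  -- the relation
  obtain ⟨Q, hQ⟩ : ∃ Q : ℕ → ℕ → Prop, ∀ x y, Q x y ↔ x ∈ st c π ∧ y ∈ st c π ∧
      (∃ p, Orb G Z p ∧ Disjoint (G.sp Z (p.1 v)) (G.sup S) ∧ G.sp Z x = G.sp Z (p.1 v)) ∧
      G.sp Z y ≠ G.sp Z x := ⟨_, fun _ _ => Iff.rfl⟩
  -- step (4)
  have H4 : ∀ x y x' y', Q x y → Q x' y' → tp c (S' ++ zl π) x = tp c (S' ++ zl π) x' →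
      tp c (S' ++ zl π) y = tp c (S' ++ zl π) y' → ee c x y = ee c x' y' := by
    intro x y x' y' h1 h2 hx hy
    obtain ⟨h1x, h1y, ⟨p, hp, hpS, hpx⟩, h1n⟩ := (hQ _ _).1 h1
    obtain ⟨h2x, h2y, ⟨p', hp', hpS', hpx'⟩, h2n⟩ := (hQ _ _).1 h2
    obtain ⟨e, heS, hea, hene, hn1, hn2, hte⟩ := hrepE p hp x h1x hpx (G.sp Z y) (G.sp Z y')
    have hxZ := htpZ x h1x x' h2x hx
    have heL : e ∈ S' ++ zl π := List.mem_append_left _ ((hS' e).2 ⟨heS, hea⟩)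
    have k1 : ee c e y = ee c e y' := ee_eq_iff.2 (tp_eq_iff.1 hy e heL)
    rw [H3 e hea y h1y hene hn1, H3 e hea y' h2y hene hn2] at k1
    have k2 : ee c e (lam y) = ee c x (lam y) := tp_eq_iff.1 hte _ (h.lamZ y h1y).1
    have k3 : ee c e (lam y') = ee c x' (lam y') :=
      (tp_eq_iff.1 hte _ (h.lamZ y' h2y).1).trans (tp_eq_iff.1 hxZ _ (h.lamZ y' h2y).1)
    rw [H3 x h1x y h1y (by rw [hpx]; exact hne p hp) h1n,
      H3 x' h2x y' h2y (by rw [hpx']; exact hne p' hp') h2n, ← k2, ← k3, k1]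
  -- step (5)
  have H5 : ∀ p, Orb G Z p → Disjoint (G.sp Z (p.1 v)) (G.sup S) → ∀ q, Orb G Z q →
      Disjoint (G.sp Z (q.1 v)) (G.sup S) → ∀ x ∈ st c π, G.sp Z x = G.sp Z (p.1 v) →
      ∃ x' ∈ st c π, G.sp Z x' = G.sp Z (q.1 v) ∧
        tp c (S' ++ zl π) x' = tp c (S' ++ zl π) x := by
    intro p hp hpS q hq hqS x hx hsx
    have hr := hp.comp hq
    have hgx : (q * p⁻¹).1 x ∈ st c π := (hst _ hr x).2 hx
    have hsg : G.sp Z ((q * p⁻¹).1 x) = G.sp Z (q.1 v) := sp_move hp hq hsx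
    refine ⟨(q * p⁻¹).1 x, hgx, hsg, ?_⟩
    rw [tp_eq_iff]
    have hZc : ∀ s ∈ Z, ee c ((q * p⁻¹).1 x) s = ee c x s := by
      intro s hs
      have e1 := ee_aut hr.1 x s
      rwa [hr.2 s hs] at e1
    intro s hs
    rcases List.mem_append.1 hs with hs | hs
    · obtain ⟨hsS, hsa⟩ := (hS' s).1 hs
      rcases hSc s hsS with hsZ | -
      · exact hZc s hsZ
      · -- the new support of s lies in the support of S
        have hss : G.sp Z s ⊆ G.sup S := hsupS s hsS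
        have m1 : G.sp Z s ≠ G.sp Z ((q * p⁻¹).1 x) := by
          rw [hsg]
          exact (hneq q hq _ (Finset.disjoint_of_subset_right hss hqS)).symm
        have m2 : G.sp Z s ≠ G.sp Z x := by
          rw [hsx]
          exact (hneq p hp _ (Finset.disjoint_of_subset_right hss hpS)).symm
        rw [H3 _ hgx s hsa (by rw [hsg]; exact hne q hq) m1,
          H3 x hx s hsa (by rw [hsx]; exact hne p hp) m2]
        exact hZc _ (h.lamZ s hsa).1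
    · exact hZc s (h.dlZ (zl_sub_dl π hs))
  -- two more disjoint translates
  obtain ⟨q1, hq1, hq1S⟩ := hoff (G.sup S)
  obtain ⟨q2, hq2, hq2S'⟩ := hoff (G.sup S ∪ G.sp Z (q1.1 v))
  have hq2S : Disjoint (G.sp Z (q2.1 v)) (G.sup S) :=
    Finset.disjoint_of_subset_right Finset.subset_union_left hq2S'
  have hq21 : G.sp Z (q2.1 v) ≠ G.sp Z (q1.1 v) := hneq q2 hq2 _
    (Finset.disjoint_of_subset_right Finset.subset_union_right hq2S')
  have H6 : ∀ x y x' y', Q x y → Q x' y' → tp c (S' ++ zl π) x = tp c (S' ++ zl π) y' →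
      tp c (S' ++ zl π) y = tp c (S' ++ zl π) x' → ee c x y = ee c y' x' := by
    intro x y x' y' h1 h2 hx hy
    obtain ⟨h1x, h1y, ⟨p, hp, hpS, hpx⟩, h1n⟩ := (hQ _ _).1 h1
    obtain ⟨h2x, h2y, ⟨p', hp', hpS', hpx'⟩, h2n⟩ := (hQ _ _).1 h2
    obtain ⟨u, hu, hsu, htu⟩ := H5 p hp hpS q1 hq1 hq1S x h1x hpx
    obtain ⟨u', hu', hsu', htu'⟩ := H5 p' hp' hpS' q2 hq2 hq2S x' h2x hpx'
    have Q1 : Q u u' := (hQ _ _).2 ⟨hu, hu', ⟨q1, hq1, hq1S, hsu⟩, by rw [hsu, hsu']; exact hq21⟩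
    have Q2 : Q u' u := (hQ _ _).2 ⟨hu', hu, ⟨q2, hq2, hq2S, hsu'⟩,
      by rw [hsu, hsu']; exact hq21.symm⟩
    have k1 := H4 x y u u' h1 Q1 htu.symm (hy.trans htu'.symm)
    have k2 := H4 x' y' u' u h2 Q2 htu'.symm (hx.symm.trans htu.symm)
    rw [k1, ee_eq_iff, ← k2]
  obtain ⟨F, hFs, hFv⟩ := hS n c G.bd (S' ++ zl π) Q H4 H6
  -- the components
  have hcomp : ∀ p, Orb G Z p → Disjoint (G.sp Z (p.1 v)) (G.sup S) →
      st c ((S', F, p.1 v, true) :: π) ⊆ {x | x ∈ st c π ∧ G.sp Z x = G.sp Z (p.1 v)} := by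
    intro p hp hpS
    rw [st_true]
    refine cl_min ⟨(hst p hp v).2 hv, rfl⟩ ?_
    rintro u ⟨hu, hsu⟩ w hw hwL har
    refine ⟨hw, ?_⟩
    by_contra hne'
    exact har (hFv u w ((hQ _ _).2 ⟨hu, hw, ⟨p, hp, hpS, hsu⟩, by rwa [hsu]⟩))
  have hout : ∀ p, Orb G Z p → Disjoint (G.sp Z (p.1 v)) (G.sup S) →
      ¬ G.sup (p.1 v :: S) ⊆ G.sup S := by
    intro p hp hpS hsub
    obtain ⟨j, hj⟩ := hne p hp
    have h1 : j ∈ G.sup (p.1 v :: S) := by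
      refine G.mono _ _ ?_ (Finset.mem_sdiff.1 hj).1
      intro a ha
      rcases List.mem_cons.1 ha with rfl | ha
      · exact List.mem_cons_self
      · exact List.mem_cons_of_mem _ (hZS ha)
    exact Finset.disjoint_left.1 hpS hj (hsub h1)
  have hvd : ∀ p, Orb G Z p → Disjoint (G.sp Z (p.1 v)) (G.sup S) →
      Vd c ((S', F, p.1 v, true) :: π) := by
    intro p hp hpS
    refine vd_cons.2 ⟨h.vd, fun a ha => ((hS' a).1 ha).2, (hst p hp v).2 hv, fun hmem => ?_⟩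
    exact hout p hp hpS (G.sup_mem (hS'S hmem))
  have hbig : ∀ p, Orb G Z p → Disjoint (G.sp Z (p.1 v)) (G.sup S) →
      ¬ Sm ((S', F, p.1 v, true) :: π) := by
    intro p hp hpS hsm
    exact hout p hp hpS (G.cmp π S' F (p.1 v) (hvd p hp hpS) hFs hsm S
      (fun a ha => hZS (h.dlZ ha)) hS'S)
  have hfin := G.fin π S' F h.vd (fun a ha => ((hS' a).1 ha).2) hFs
  obtain ⟨p, hp, hpU⟩ := hoff (G.sup S ∪ hfin.toFinset.biUnion
    (fun D => if hD : D.Nonempty then G.sp Z hD.some else ∅))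
  have hpS : Disjoint (G.sp Z (p.1 v)) (G.sup S) :=
    Finset.disjoint_of_subset_right Finset.subset_union_left hpU
  have hmem : st c ((S', F, p.1 v, true) :: π) ∈ hfin.toFinset := by
    rw [Set.Finite.mem_toFinset]
    exact ⟨p.1 v, (hst p hp v).2 hv, (vd_cons.1 (hvd p hp hpS)).2.2.2, hbig p hp hpS, rfl⟩
  have hDne : (st c ((S', F, p.1 v, true) :: π)).Nonempty := ⟨p.1 v, base_mem⟩
  have hsome : G.sp Z hDne.some = G.sp Z (p.1 v) := (hcomp p hp hpS hDne.some_mem).2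
  obtain ⟨j, hj⟩ := hne p hp
  refine Finset.disjoint_left.1 hpU hj (Finset.mem_union_right _ (Finset.mem_biUnion.2
    ⟨_, hmem, ?_⟩))
  rw [dif_pos hDne, hsome]
  exact hj

end Pool.Agent.H16.CW

namespace Pool.Agent.CW

theorem pf_CT2 (hSYT : T_SYT) (hFTY : T_FTY) : T_CT2 := Pool.Agent.H16.CW.pf_ct2 hSYT hFTY

end Pool.Agent.CW
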