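import Pool.Agent.H71.CW.Gms
import Pool.Agent.H94.VK.Meas

/-!
# GM2: the structures with at most `m` germs at every direction form a Borel set
-/

set_option autoImplicit false

open Set

namespace Pool.Agent.CW

open Pool.Agent.H94.VK (meas_rtg)

namespace GM2

lemma meas_val (x y : ℕ) : Measurable fun c : ℕ → ℕ → ℕ => c x y :=
  (measurable_pi_apply y).comp (measurable_pi_apply x)

lemma meas_ee (x y : ℕ) (p : ℕ × ℕ) : MeasurableSet {c : ℕ → ℕ → ℕ | ee c x y = p} := by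
  have h : {c : ℕ → ℕ → ℕ | ee c x y = p} =
      {c : ℕ → ℕ → ℕ | c x y = p.1} ∩ {c : ℕ → ℕ → ℕ | c y x = p.2} := by
    ext c
    simp only [ee, mem_ofPred_eq, mem_inter_iff, Prod.ext_iff]
  rw [h]
  exact (meas_val x y (measurableSet_singleton _)).inter (meas_val y x (measurableSet_singleton _))

lemma meas_tp (L : List ℕ) (x : ℕ) (t : Ty) : MeasurableSet {c : ℕ → ℕ → ℕ | tp c L x = t} := by
  induction L generalizing t with
  | nil => exact MeasurableSet.const (([] : Ty) = t)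
  | cons a L ih =>
    cases t with
    | nil =>
      have h : {c : ℕ → ℕ → ℕ | tp c (a :: L) x = []} = ∅ := by
        ext c
        simp [tp]
      rw [h]
      exact MeasurableSet.empty
    | cons b t =>
      have h : {c : ℕ → ℕ → ℕ | tp c (a :: L) x = b :: t} =
          {c : ℕ → ℕ → ℕ | ee c x a = b} ∩ {c : ℕ → ℕ → ℕ | tp c L x = t} := by
        ext c
        simp [tp]
      rw [h]
      exact (meas_ee x a b).inter (ih t)

lemma meas_ar (L : List ℕ) (F : Tab) (x y : ℕ) :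
    MeasurableSet {c : ℕ → ℕ → ℕ | Ar c L F x y} := by
  have h : {c : ℕ → ℕ → ℕ | Ar c L F x y} = ⋃ s : Ty, ⋃ t : Ty,
      ({c : ℕ → ℕ → ℕ | tp c L x = s} ∩ ({c : ℕ → ℕ → ℕ | tp c L y = t} ∩
        {c : ℕ → ℕ → ℕ | ee c x y = lk F s t}ᶜ)) := by
    ext c
    simp only [Ar, mem_ofPred_eq, mem_iUnion, mem_inter_iff, mem_compl_iff]
    constructor
    · intro h
      exact ⟨_, _, rfl, rfl, h⟩
    · rintro ⟨s, t, rfl, rfl, h⟩
      exact h
  rw [h]
  exact MeasurableSet.iUnion fun s => MeasurableSet.iUnion fun t =>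
    (meas_tp L x s).inter ((meas_tp L y t).inter (meas_ee x y _).compl)

lemma meas_cl (L : List ℕ) (F : Tab) (x z : ℕ) :
    MeasurableSet {c : ℕ → ℕ → ℕ | z ∈ cl c univ L F x} := by
  refine meas_rtg _ (fun a b => ?_) x z
  exact (meas_ar L F a b).inter ((MeasurableSet.const _).inter (MeasurableSet.const _))

lemma meas_agree (a b z : ℕ) : MeasurableSet {c : ℕ → ℕ → ℕ | ee c a z = ee c b z} := by
  have h : {c : ℕ → ℕ → ℕ | ee c a z = ee c b z} = ⋃ p : ℕ × ℕ,
      ({c : ℕ → ℕ → ℕ | ee c a z = p} ∩ {c : ℕ → ℕ → ℕ | ee c b z = p}) := by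
    ext c
    simp only [mem_ofPred_eq, mem_iUnion, mem_inter_iff]
    constructor
    · intro h
      exact ⟨_, h, rfl⟩
    · rintro ⟨p, h1, h2⟩
      exact h1.trans h2.symm
  rw [h]
  exact MeasurableSet.iUnion fun p => (meas_ee a z p).inter (meas_ee b z p)

lemma meas_cor (L : List ℕ) (F : Tab) (a b x : ℕ) :
    MeasurableSet {c : ℕ → ℕ → ℕ | x ∈ Cor c L F a b} := by
  have h : {c : ℕ → ℕ → ℕ | x ∈ Cor c L F a b} = {_c : ℕ → ℕ → ℕ | x ∉ L} ∩
      ⋂ z : ℕ, ({c : ℕ → ℕ → ℕ | z ∈ cl c univ L F x}ᶜ ∪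
        {c : ℕ → ℕ → ℕ | ee c a z = ee c b z}) := by
    ext c
    simp only [Cor, mem_ofPred_eq, mem_iInter, mem_inter_iff, mem_union, mem_compl_iff]
    exact and_congr_right fun _ => forall_congr' fun z => imp_iff_not_or
  rw [h]
  exact (MeasurableSet.const _).inter (MeasurableSet.iInter fun z =>
    (meas_cl L F x z).compl.union (meas_agree a b z))

end GM2

theorem pf_GM2 : T_GM2 := by
  intro m
  have h : {c : ℕ → ℕ → ℕ | AtQ c m} = ⋂ f : Fin (m + 1) → ℕ,
      ⋃ g : Fin (m + 1) → Fin (m + 1) → List ℕ × Tab, ⋃ N : ℕ, ⋂ y : ℕ,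
        ({_c : ℕ → ℕ → ℕ | N ≤ y}ᶜ ∪ ⋃ i : Fin (m + 1), ⋃ j : Fin (m + 1),
          ({_c : ℕ → ℕ → ℕ | i ≠ j} ∩
            {c : ℕ → ℕ → ℕ | y ∈ Cor c (g i j).1 (g i j).2 (f i) (f j)})) := by
    ext c
    simp only [AtQ, mem_ofPred_eq, mem_iInter, mem_iUnion, mem_inter_iff, mem_union, mem_compl_iff]
    exact forall_congr' fun f => exists_congr fun g => exists_congr fun N =>
      forall_congr' fun y => imp_iff_not_or
  rw [h]
  exact MeasurableSet.iInter fun f => MeasurableSet.iUnion fun g => MeasurableSet.iUnion fun N =>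
    MeasurableSet.iInter fun y => (MeasurableSet.const _).compl.union
      (MeasurableSet.iUnion fun i => MeasurableSet.iUnion fun j =>
        (MeasurableSet.const _).inter (GM2.meas_cor _ _ _ _ _))

end Pool.Agent.CW
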