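import Pool.Agent.H75.CW.StmtE
import Pool.Agent.H71.VK.CLB

/-! The space of points at infinity is an isomorphism invariant. -/

set_option autoImplicit false

open Set Pool.Agent.TK Pool.Agent.H71.VK Pool.Agent.CW

namespace Pool.Agent.H16.CW

lemma mp_symm_mp (h : Equiv.Perm ℕ) (π : Pr) : mp h (mp h.symm π) = π := by
  rw [mp_mp]
  have e : (⇑h ∘ ⇑h.symm : ℕ → ℕ) = id := by
    funext x
    simp
  rw [e, mp_id]

lemma mp_mp_symm (h : Equiv.Perm ℕ) (π : Pr) : mp h.symm (mp h π) = π := by
  rw [mp_mp]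
  have e : (⇑h.symm ∘ ⇑h : ℕ → ℕ) = id := by
    funext x
    simp
  rw [e, mp_id]

/-- renaming of presentations -/
def mpE (h : Equiv.Perm ℕ) : Pr ≃ Pr where
  toFun := mp h
  invFun := mp h.symm
  left_inv := mp_mp_symm h
  right_inv := mp_symm_mp h

lemma om_map {C : Type} (hIOT : T_IOT C) {M N : St (C × ℕ)} {h : Equiv.Perm ℕ}
    (H : IsoH h M N) (Θ : ℕ → Set (Tr C)) {w : Pr → Bool} (hw : w ∈ Om Θ M) :
    (fun π => w (mp h.symm π)) ∈ Om Θ N := by
  obtain ⟨h1, h2, h3, h4, h5⟩ := hw
  have hbn : ∀ x y, bn N (h x) (h y) = bn M x y := (hIOT M N h [] H).1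
  have hvd : ∀ π, Vd (bn N) π ↔ Vd (bn M) (mp h.symm π) := by
    intro π
    have := vd_iso h hbn (mp h.symm π)
    rwa [mp_symm_mp] at this
  refine ⟨h1, fun π hπ => (hvd π).2 (h2 _ hπ), fun s π hs => ?_, fun π S F x hπ hv => ?_,
    fun l hl i => ?_⟩
  · exact h3 _ _ hs
  · have := h4 (mp h.symm π) (S.map h.symm) F (h.symm x) hπ ((hvd _).1 hv)
    exact this
  · obtain ⟨ρ, r1, r2, r3, r4⟩ := h5 (l.map (mp h.symm)) (by
      intro π hπ
      obtain ⟨π', hπ', rfl⟩ := List.mem_map.1 hπ
      exact hl π' hπ') i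
    refine ⟨mp h ρ, (vd_iso h hbn ρ).2 r1, ?_, ?_, ?_⟩
    · rw [st_iso h hbn]
      exact r2.image _
    · intro π hπ
      have k := r3 _ (List.mem_map_of_mem hπ)
      have k2 : st (bn N) π = h '' st (bn M) (mp h.symm π) := by
        rw [← st_iso h hbn, mp_symm_mp]
      rw [k2, st_iso h hbn]
      exact Set.image_mono k
    · rwa [← (hIOT M N h ρ H).2.2]

end Pool.Agent.H16.CW

namespace Pool.Agent.CW

open Pool.Agent.H16.CW in
/-- OMI: the space of points at infinity is an isomorphism invariant. -/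
theorem pf_OMI {C : Type} (hIOT : T_IOT C) : E_OMI C := by
  intro M N h H Θ
  have hEq : ∀ w : Pr → Bool, w ∈ Om Θ M ↔ (fun π => w (mp h.symm π)) ∈ Om Θ N := by
    intro w
    refine ⟨om_map hIOT H Θ, fun hw => ?_⟩
    have k := om_map hIOT (Pool.Agent.H71.VK.isoH_symm H) Θ hw
    have e : (fun π => (fun π' => w (mp h.symm π')) (mp h.symm.symm π)) = w := by
      funext π
      change w (mp h.symm (mp h.symm.symm π)) = w π
      rw [mp_symm_mp h.symm]
    rw [e] at k
    exact k
  let E : (Pr → Bool) ≃ₜ (Pr → Bool) :=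
    { toFun := fun w π => w (mp h.symm π)
      invFun := fun w π => w (mp h π)
      left_inv := fun w => by
        funext π
        change w (mp h.symm (mp h π)) = w π
        rw [mp_mp_symm]
      right_inv := fun w => by
        funext π
        change w (mp h (mp h.symm π)) = w π
        rw [mp_symm_mp]
      continuous_toFun := continuous_pi fun π => continuous_apply _
      continuous_invFun := continuous_pi fun π => continuous_apply _ }
  exact ⟨E.subtype fun w => hEq w⟩

end Pool.Agent.CW
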